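import Pool.Agent.Ctc.Flips
import Pool.Agent.Trp.Ctf
import Pool.Agent.Taw.Brg

/-! The number of contacts between the two parts of a self-avoiding walk on the cubic lattice.
(Library file, not a hand-in; text of a claim, should it become one.)

Proves: On Z^3 let c_n be the number of n-step self-avoiding walks from 0. There is a constant C
such that for all t, s at most C c_t c_s triples (w, i, j) have w a self-avoiding walk of length
t+s from 0, i ≤ t ≤ j and w_i, w_j neighbours.

Definitions: Nbr u v: v-u is plus or minus a standard unit vector; SAW n: injective sequences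
w_0=0,...,w_n in Z^3 with consecutive points neighbours; c n: number of elements of SAW n;
Con t s: the triples (w, i, j) above.

Relation: Partial answer to Q1. The mean number of contacts of the parts of a walk of length t+s
before and after time t is at most C c_t c_s/c_(t+s): the bound which a finite bubble diagram
gives for d ≥ 5 holds on Z^3, where the bubble is infinite. It bounds from below the ratio
c_t c_s/c_(t+s), of order (ts/(t+s))^(gamma-1) in Q1: if the mean number is unbounded for t=s=n,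
so is c_n/mu^n. Proof: a local flip at every contact. -/

set_option autoImplicit false

namespace Pool.Agent.Results.MP_794e6e_pr.Contacts

open Pool.Agent.Bub4 Pool.Agent.SawM2 Pool.Agent.Taw Pool.Agent.Trp
open Pool.Agent.SubBall (St stv)
open Pool.Agent.SawNice (pa fu)

/-- Two points of `ℤ^3` are neighbours if their difference is plus or minus a standard unit
vector. -/
def Nbr (u v : Fin 3 → ℤ) : Prop := ∃ i : Fin 3, v - u = Pi.single i 1 ∨ v - u = - Pi.single i 1

/-- The self-avoiding walks `(ω 0, …, ω n)` of length `n` in `ℤ^3` with `ω 0 = 0`. -/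
def SAW (n : ℕ) : Set (Fin (n + 1) → (Fin 3 → ℤ)) :=
  {ω | ω 0 = 0 ∧ (∀ j : Fin n, Nbr (ω j.castSucc) (ω j.succ)) ∧ Function.Injective ω}

/-- `c n`: the number of self-avoiding walks of length `n` from the origin. -/
noncomputable def c (n : ℕ) : ℕ := (SAW n).ncard

/-- The self-avoiding walks `ω` of length `t + s` with a marked pair of places `i ≤ t ≤ j` at which
`ω` is at neighbouring points. -/
def Con (t s : ℕ) : Set ((Fin (t + s + 1) → (Fin 3 → ℤ)) × Fin (t + s + 1) × Fin (t + s + 1)) :=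
  {p | p.1 ∈ SAW (t + s) ∧ (p.2.1 : ℕ) ≤ t ∧ t ≤ (p.2.2 : ℕ) ∧ Nbr (p.1 p.2.1) (p.1 p.2.2)}

/-- the nearest neighbour system with activity `1` -/
noncomputable abbrev Y0 : Sys (St 1) (Zk 3) := lat 1 one_pos

theorem nbr_iff {u v : Fin 3 → ℤ} : Nbr u v ↔ ∃ s : St 1, stv 1 s = v - u := by
  constructor
  · rintro ⟨i, h | h⟩
    · exact ⟨(i, true), by rw [h]; simp [stv]⟩
    · exact ⟨(i, false), by rw [h]; simp [stv]⟩
  · rintro ⟨⟨i, b⟩, h⟩
    refine ⟨i, ?_⟩
    rw [← h]
    cases b <;> simp [stv]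

theorem nbr_n1 {u v : Fin 3 → ℤ} (h : Nbr u v) : n1 (u - v) = 1 := by
  obtain ⟨i, h | h⟩ := h
  · have h1 : u - v = - Pi.single i 1 := by rw [← h]; abel
    rw [h1]
    unfold n1
    rw [Finset.sum_eq_single i]
    · simp
    · intro j _ hj
      simp [hj]
    · simp
  · have h1 : u - v = Pi.single i 1 := by rw [← neg_sub, h, neg_neg]
    rw [h1]
    unfold n1
    rw [Finset.sum_eq_single i]
    · simp
    · intro j _ hj
      simp [hj]
    · simp

theorem pl_mem {n : ℕ} {l : List (St 1)} (hl : l.length = n) (hs : Y0.Saw l) :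
    pl Y0 n l ∈ SAW n := by
  refine ⟨by simp [pl], ?_, ?_⟩
  · intro j
    rw [nbr_iff]
    have hj : (j : ℕ) < l.length := by rw [hl]; exact j.2
    refine ⟨l[(j : ℕ)], ?_⟩
    simp only [pl, Fin.val_succ, Fin.val_castSucc]
    rw [List.take_add_one, Sys.sm_append, List.getElem?_eq_getElem hj]
    simp only [Option.toList_some, Sys.sm_cons, Sys.sm_nil, add_zero, add_sub_cancel_left]
    rfl
  · intro i j hij
    have h1 := (saw_iff_take (Y := Y0) l).1 hs
    rcases lt_trichotomy (i : ℕ) (j : ℕ) with h | h | h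
    · exact absurd hij (h1 i j h (by omega))
    · exact Fin.ext h
    · exact absurd hij.symm (h1 j i h (by omega))

theorem pl_surj {n : ℕ} {ω : Fin (n + 1) → (Fin 3 → ℤ)} (hω : ω ∈ SAW n) :
    ∃ l : List (St 1), l.length = n ∧ Y0.Saw l ∧ pl Y0 n l = ω := by
  obtain ⟨h0, h1, h2⟩ := hω
  have h3 : ∀ j : Fin n, ∃ s : St 1, stv 1 s = ω j.succ - ω j.castSucc := fun j =>
    nbr_iff.1 (h1 j)
  choose s hs using h3
  have hp : ∀ j, ∀ hj : j ≤ n, Y0.sm ((List.ofFn s).take j) = ω ⟨j, by omega⟩ := by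
    intro j
    induction j with
    | zero =>
      intro _
      simp only [List.take_zero, Sys.sm_nil]
      exact h0.symm
    | succ j ih =>
      intro hj
      have hjn : j < (List.ofFn s).length := by simp; omega
      rw [List.take_add_one, Sys.sm_append, ih (by omega), List.getElem?_eq_getElem hjn]
      simp only [Option.toList_some, Sys.sm_cons, Sys.sm_nil, add_zero, List.getElem_ofFn]
      have h4 := hs ⟨j, by omega⟩
      simp only [Fin.succ_mk, Fin.castSucc_mk] at h4
      show _ + stv 1 (s ⟨j, _⟩) = _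
      rw [h4]
      abel
  refine ⟨List.ofFn s, by simp, ?_, ?_⟩
  · rw [saw_iff_take (Y := Y0)]
    intro i j hij hj heq
    have hj' : j ≤ n := by simpa using hj
    rw [hp i (by omega), hp j hj'] at heq
    have h4 := h2 heq
    rw [Fin.mk.injEq] at h4
    omega
  · funext j
    exact hp j (by omega)

theorem SAW_finite (k : ℕ) : (SAW k).Finite := by
  refine (Set.finite_range fun w : Fin k → St 1 => pl Y0 k (List.ofFn w)).subset ?_
  intro ω hω
  obtain ⟨l, hl, -, hl'⟩ := pl_surj hω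
  subst hl
  refine ⟨l.get, ?_⟩
  simp only [List.ofFn_get]
  exact hl'

/-- the self-avoiding words of length `n` -/
noncomputable def Ws (n : ℕ) : Finset (Fin n → St 1) :=
  open Classical in Finset.univ.filter fun w => Y0.Saw (List.ofFn w)

theorem E_Ws (n : ℕ) (F : List (St 1) → ℝ) :
    (Y0.E n fun w => Y0.sv w * F w) = ∑ w ∈ Ws n, F (List.ofFn w) := by
  classical
  rw [Sys.E_eq]
  unfold Ws
  rw [Finset.sum_filter]
  refine Finset.sum_congr rfl fun w _ => ?_
  have hz : Y0.z = 1 := by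
    show ((1 : ℝ))⁻¹ = 1
    norm_num
  rw [hz, one_pow]
  by_cases hs : Y0.Saw (List.ofFn w)
  · rw [Y0.sv_of hs, if_pos hs]
    ring
  · rw [Y0.sv_of_not hs, if_neg hs]
    ring

theorem a_le_c (n : ℕ) : Y0.a n ≤ c n := by
  classical
  have h1 : Y0.a n = ((Ws n).card : ℝ) := by
    have h := E_Ws n fun _ => 1
    simp only [mul_one, Finset.sum_const, nsmul_eq_mul] at h
    exact h
  rw [h1, Nat.cast_le]
  unfold c
  have h2 : (((Ws n).image fun w => pl Y0 n (List.ofFn w) : Finset _) : Set _) ⊆ SAW n := by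
    intro ω hω
    rw [Finset.coe_image] at hω
    obtain ⟨w, hw, rfl⟩ := hω
    unfold Ws at hw
    rw [Finset.mem_coe, Finset.mem_filter] at hw
    exact pl_mem (by simp) hw.2
  have h3 := Set.ncard_le_ncard h2 (SAW_finite n)
  rw [Set.ncard_coe_finset, Finset.card_image_of_injOn] at h3
  · exact h3
  · intro w _ w' _ h
    have := pl_inj Y0 (stv_injective 1) (by simp) (by simp) h
    exact List.ofFn_injective this

/-- the number of the marked pairs of a word -/
theorem pairs_le {t s : ℕ} {l : List (St 1)} (hl : l.length = t + s) :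
    (open Classical in (Finset.univ : Finset (Fin (t + s + 1) × Fin (t + s + 1))).filter fun q =>
      (q.1 : ℕ) ≤ t ∧ t ≤ (q.2 : ℕ) ∧ Nbr (pl Y0 (t + s) l q.1) (pl Y0 (t + s) l q.2)).card ≤
      ct Y0 (l.take t) (l.drop t) := by
  classical
  unfold ct
  refine Finset.card_le_card_of_injOn (fun q => ((q.1 : ℕ), (q.2 : ℕ) - t)) ?_ ?_
  · intro q hq
    rw [Finset.mem_coe, Finset.mem_filter] at hq
    obtain ⟨-, h1, h2, h3⟩ := hq
    rw [Finset.mem_coe, Finset.mem_filter, Finset.mem_product, Finset.mem_range, Finset.mem_range]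
    have hq2 := q.2.2
    have hlt : (l.take t).length = t := by
      rw [List.length_take]
      omega
    have hld : (l.drop t).length = s := by
      rw [List.length_drop]
      omega
    refine ⟨⟨by rw [hlt]; show (q.1 : ℕ) < t + 1; omega, by
      rw [hld]
      show (q.2 : ℕ) - t < s + 1
      omega⟩, ?_⟩
    show n1 (pa Y0 (l.take t) (q.1 : ℕ) - fu Y0 (l.drop t) ((q.2 : ℕ) - t)) = 1
    have e1 : pa Y0 (l.take t) (q.1 : ℕ) = Y0.sm (l.take (q.1 : ℕ)) - Y0.sm (l.take t) := by
      rw [Pool.Agent.SawNice.pa_eq, List.take_take, min_eq_left h1]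
    have e2 : fu Y0 (l.drop t) ((q.2 : ℕ) - t) = Y0.sm (l.take (q.2 : ℕ)) - Y0.sm (l.take t) := by
      unfold fu
      have e3 : l.take (q.2 : ℕ) = l.take t ++ (l.drop t).take ((q.2 : ℕ) - t) := by
        have := List.take_add (l := l) (i := t) (j := (q.2 : ℕ) - t)
        rw [← this]
        congr 1
        omega
      rw [e3, Sys.sm_append]
      abel
    rw [e1, e2, sub_sub_sub_cancel_right]
    exact nbr_n1 h3
  · intro q hq q' hq' h
    rw [Finset.mem_coe, Finset.mem_filter] at hq hq'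
    simp only [Prod.mk.injEq] at h
    refine Prod.ext (Fin.ext h.1) (Fin.ext ?_)
    have h1 := hq.2.2.1
    have h2 := hq'.2.2.1
    omega

theorem exists_ofFn {n : ℕ} {l : List (St 1)} (h : l.length = n) :
    ∃ w : Fin n → St 1, List.ofFn w = l := by
  subst h
  exact ⟨l.get, List.ofFn_get l⟩

theorem con_le (t s : ℕ) : (Con t s).Finite ∧ ((Con t s).ncard : ℝ) ≤
    Y0.E (t + s) fun w => Y0.sv w * (ct Y0 (w.take t) (w.drop t) : ℝ) := by
  classical
  set F : Finset ((Fin (t + s + 1) → (Fin 3 → ℤ)) × Fin (t + s + 1) × Fin (t + s + 1)) :=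
    (Ws (t + s)).biUnion fun w => ((Finset.univ : Finset (Fin (t + s + 1) × Fin (t + s + 1))).filter
      fun q => (q.1 : ℕ) ≤ t ∧ t ≤ (q.2 : ℕ) ∧
        Nbr (pl Y0 (t + s) (List.ofFn w) q.1) (pl Y0 (t + s) (List.ofFn w) q.2)).image
      fun q => (pl Y0 (t + s) (List.ofFn w), q) with hF
  have h1 : Con t s ⊆ (F : Set _) := by
    rintro ⟨ω, q⟩ ⟨h1, h2, h3, h4⟩
    obtain ⟨l, hl, hs, hl'⟩ := pl_surj h1
    obtain ⟨w, hw⟩ := exists_ofFn hl
    rw [hF, Finset.mem_coe, Finset.mem_biUnion]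
    refine ⟨w, ?_, ?_⟩
    · unfold Ws
      rw [Finset.mem_filter, hw]
      exact ⟨Finset.mem_univ _, hs⟩
    · rw [Finset.mem_image]
      refine ⟨q, ?_, ?_⟩
      · rw [Finset.mem_filter, hw, hl']
        exact ⟨Finset.mem_univ _, h2, h3, h4⟩
      · rw [hw, hl']
  refine ⟨(Finset.finite_toSet F).subset h1, ?_⟩
  have h2 : (Con t s).ncard ≤ ∑ w ∈ Ws (t + s), ct Y0 ((List.ofFn w).take t) ((List.ofFn w).drop t) := by
    refine (Set.ncard_le_ncard h1 (Finset.finite_toSet _)).trans ?_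
    rw [Set.ncard_coe_finset]
    refine Finset.card_biUnion_le.trans (Finset.sum_le_sum fun w _ => ?_)
    exact Finset.card_image_le.trans (pairs_le (by simp))
  rw [E_Ws (t + s) fun w => (ct Y0 (w.take t) (w.drop t) : ℝ)]
  exact_mod_cast h2

/-- **Main result.** There is a constant `C` such that for all `t`, `s` there are at most
`C * c t * c s` self-avoiding walks of length `t + s` with a marked pair of places `i ≤ t ≤ j` at
which the walk is at neighbouring points. -/
theorem result : ∃ C : ℝ, ∀ t s : ℕ, (Con t s).Finite ∧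
    ((Con t s).ncard : ℝ) ≤ C * c t * c s := by
  obtain ⟨C, hC⟩ := ct_flips (μ := 1) one_pos
  have hz : Y0.z = 1 := by
    show ((1 : ℝ))⁻¹ = 1
    norm_num
  refine ⟨|C| * (1 + (4 * Y0.a 2 + 2)), fun t s => ⟨(con_le t s).1, (con_le t s).2.trans ?_⟩⟩
  rw [Y0.E_add]
  have h1 : (Y0.E t fun u => Y0.E s fun v => Y0.sv (u ++ v) *
      (ct Y0 ((u ++ v).take t) ((u ++ v).drop t) : ℝ)) ≤
      Y0.E t fun u => Y0.E s fun v => |C| * (Y0.sv u * Y0.sv v +
        Y0.sv (u ++ v) * (Ph Y0 u v + Ph Y0 (bar Y0 v) (bar Y0 u))) := by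
    refine Y0.E_mono fun u hu => Y0.E_mono fun v _ => ?_
    rw [← hu, List.take_left, List.drop_left]
    by_cases hs : Y0.Saw (u ++ v)
    · have h4 := hC u v hs
      have h6 : 0 ≤ 1 + Ph Y0 u v + Ph Y0 (bar Y0 v) (bar Y0 u) := by
        have p1 : 0 ≤ Ph Y0 u v := by
          unfold Ph
          exact add_nonneg (Finset.sum_nonneg fun _ _ => Finset.sum_nonneg fun _ _ => ind_nonneg _)
            (Finset.sum_nonneg fun _ _ => ind_nonneg _)
        have p2 : 0 ≤ Ph Y0 (bar Y0 v) (bar Y0 u) := by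
          unfold Ph
          exact add_nonneg (Finset.sum_nonneg fun _ _ => Finset.sum_nonneg fun _ _ => ind_nonneg _)
            (Finset.sum_nonneg fun _ _ => ind_nonneg _)
        linarith
      have h7 : Y0.sv (u ++ v) = 1 := Y0.sv_of hs
      have h8 := Y0.sv_append_le u v
      rw [h7] at h8 ⊢
      rw [one_mul, one_mul]
      have h9 : C * (1 + Ph Y0 u v + Ph Y0 (bar Y0 v) (bar Y0 u)) ≤
          |C| * (1 + Ph Y0 u v + Ph Y0 (bar Y0 v) (bar Y0 u)) :=
        mul_le_mul_of_nonneg_right (le_abs_self _) h6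
      have h10 := mul_le_mul_of_nonneg_left h8 (abs_nonneg C)
      have h11 : (ct Y0 u v : ℝ) ≤ C * (1 + Ph Y0 u v + Ph Y0 (bar Y0 v) (bar Y0 u)) := h4
      nlinarith
    · rw [Y0.sv_of_not hs, zero_mul, zero_mul, add_zero]
      exact mul_nonneg (abs_nonneg _) (mul_nonneg (Y0.sv_nonneg _) (Y0.sv_nonneg _))
  refine h1.trans ?_
  simp only [Y0.E_mul_left, Y0.E_fadd]
  have h2 := Pool.Agent.Ctc.flips_le' Y0 t s
  have h3 : (Y0.E t fun u => Y0.sv u * Y0.E s Y0.sv) = Y0.a t * Y0.a s := Y0.E_mul_right _ _ _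
  rw [h3]
  rw [hz] at h2
  have h4 : (Y0.a t * Y0.a s + (4 * ((1 : ℝ) ^ 2)⁻¹ * Y0.a 2 + 2) * (Y0.a t * Y0.a s)) =
      (1 + (4 * Y0.a 2 + 2)) * (Y0.a t * Y0.a s) := by
    ring
  have h5 : Y0.a t * Y0.a s ≤ (c t : ℝ) * c s :=
    mul_le_mul (a_le_c t) (a_le_c s) (Y0.a_nonneg s) (Nat.cast_nonneg _)
  have h6 : 0 ≤ 1 + (4 * Y0.a 2 + 2) := by
    have := Y0.a_nonneg 2
    linarith
  calc |C| * (Y0.a t * Y0.a s + Y0.E t fun u => Y0.E s fun v =>
        Y0.sv (u ++ v) * (Ph Y0 u v + Ph Y0 (bar Y0 v) (bar Y0 u)))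
      ≤ |C| * ((1 + (4 * Y0.a 2 + 2)) * (Y0.a t * Y0.a s)) := by
        refine mul_le_mul_of_nonneg_left ?_ (abs_nonneg _)
        rw [← h4]
        exact add_le_add le_rfl h2
    _ ≤ |C| * ((1 + (4 * Y0.a 2 + 2)) * ((c t : ℝ) * c s)) :=
        mul_le_mul_of_nonneg_left (mul_le_mul_of_nonneg_left h5 h6) (abs_nonneg _)
    _ = |C| * (1 + (4 * Y0.a 2 + 2)) * c t * c s := by ring

end Pool.Agent.Results.MP_794e6e_pr.Contacts
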