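import Pool.Agent.RevS.Two

/-! Self-avoiding walks on `ℤ³` confined, seen from their endpoints, to reversible sets. -/

set_option autoImplicit false

namespace Pool.Agent.Results.MP_794e6e_pr.ReversibleSets

open Filter

/-- The self-avoiding walks `(ω 0, …, ω n)` of length `n` in `ℤ³` with `ω 0 = 0`. -/
def SAW (n : ℕ) : Set (Fin (n + 1) → (Fin 3 → ℤ)) :=
  {ω | ω 0 = 0 ∧ Function.Injective ω ∧
    ∀ i : Fin n, ∑ j : Fin 3, |ω i.succ j - ω i.castSucc j| = 1}

/-- `c n`: the number of self-avoiding walks of length `n` from the origin. -/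
noncomputable def c (n : ℕ) : ℕ := (SAW n).ncard

/-- `S ⊆ ℤ³` is reversible: for some symmetry `M` of the lattice `ℤ³` that fixes `0` and reverses
some nonzero vector `v ∈ {-1, 0, 1} ^ 3`, and some neighbour `e` of `0`, the set `S` and its image
under the isometry `x ↦ e + M x` are disjoint. -/
def Reversible (S : Set (Fin 3 → ℤ)) : Prop :=
  ∃ (M : Matrix (Fin 3) (Fin 3) ℤ) (v e : Fin 3 → ℤ), M.transpose * M = 1 ∧
    v ≠ 0 ∧ (∀ i, |v i| ≤ 1) ∧ M.mulVec v = -v ∧ ∑ i, |e i| = 1 ∧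
    ∀ x ∈ S, ∀ y ∈ S, x ≠ e + M.mulVec y

/-- **Main result.** Let `μ` be the limit of `c n ^ (1 / n)`. There is a constant `C` such that, for
all reversible sets `S`, `T` and all `n`, at most `C * (n + 1) ^ 8 * μ ^ n` of the self-avoiding
walks `ω` of length `n` satisfy `ω j - ω 0 ∈ S` and `ω j - ω n ∈ T` for all `j`. -/
theorem result : ∃ μ : ℝ, 0 < μ ∧
    Tendsto (fun n : ℕ => (c n : ℝ) ^ (1 / (n : ℝ))) atTop (nhds μ) ∧
    ∃ C : ℝ, ∀ S T : Set (Fin 3 → ℤ), Reversible S → Reversible T → ∀ n : ℕ,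
      ({ω ∈ SAW n | ∀ j, ω j - ω 0 ∈ S ∧ ω j - ω (Fin.last n) ∈ T}.ncard : ℝ) ≤
        C * ((n : ℝ) + 1) ^ 8 * μ ^ n := by
  classical
  obtain ⟨μ, hμ, -, -, h3⟩ := Pool.Agent.MP_794e6e_pr.exists_mu
  refine ⟨μ, by linarith, ?_, 8 * μ ^ 6, fun S T hS hT n => ?_⟩
  · have hc : ∀ n, c n = (Pool.Agent.MP_794e6e_pr.walks n).card := fun n => by
      rw [← Pool.Agent.MP_794e6e_pr.card_SP n]
      exact (Nat.card_coe_set_eq (SAW n)).symm
    simp only [hc]
    exact h3
  · refine le_trans ?_ (Pool.Agent.RevS.card_two' hμ h3 (S := T) (T := S) hT hS n)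
    have hsub : {ω ∈ SAW n | ∀ j, ω j - ω 0 ∈ S ∧ ω j - ω (Fin.last n) ∈ T} ⊆
        Pool.Agent.MP_794e6e_pr.path n '' ((Pool.Agent.RevS.two T S n :
          Finset Pool.Agent.MP_794e6e_pr.Word) : Set Pool.Agent.MP_794e6e_pr.Word) := by
      rintro ω ⟨h1, h2⟩
      obtain ⟨w, hw, rfl⟩ := Pool.Agent.MP_794e6e_pr.path_surj (n := n) (f := ω) h1
      refine ⟨w, ?_, rfl⟩
      obtain ⟨hlen, hsaw⟩ := Pool.Agent.MP_794e6e_pr.mem_walks.1 hw
      rw [Finset.mem_coe, Pool.Agent.RevS.mem_two]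
      refine ⟨hlen, hsaw, ?_, ?_⟩
      · intro u b hub
        have hu : u.length ≤ n := by rw [← hlen, hub, List.length_append]; omega
        have h4 := (h2 ⟨u.length, by omega⟩).1
        have h5 : w.take u.length = u := by rw [hub]; simp
        simpa [Pool.Agent.MP_794e6e_pr.path, h5] using h4
      · intro a u hau
        have ha : a.length ≤ n := by rw [← hlen, hau, List.length_append]; omega
        have h4 := (h2 ⟨a.length, by omega⟩).2
        have h5 : w.take a.length = a := by rw [hau]; simp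
        have h6 : w.take n = w := by rw [← hlen]; simp
        simp only [Pool.Agent.MP_794e6e_pr.path, Fin.val_last, h5, h6] at h4
        have h7 : Pool.Agent.MP_794e6e_pr.D w = Pool.Agent.MP_794e6e_pr.D a +
            Pool.Agent.MP_794e6e_pr.D u := by rw [hau, Pool.Agent.MP_794e6e_pr.D_append]
        rw [h7] at h4
        simpa using h4
    have h4 := Set.ncard_le_ncard hsub (Set.Finite.image _ (Finset.finite_toSet _))
    have h5 := Set.ncard_image_le (f := Pool.Agent.MP_794e6e_pr.path n)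
      (s := ((Pool.Agent.RevS.two T S n : Finset Pool.Agent.MP_794e6e_pr.Word) :
          Set Pool.Agent.MP_794e6e_pr.Word)) (Finset.finite_toSet _)
    rw [Set.ncard_coe_finset] at h5
    exact_mod_cast h4.trans h5

end Pool.Agent.Results.MP_794e6e_pr.ReversibleSets
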